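import Pool.Graph.R_seed8.Y882.GX.Pt2

/-!
# The sifted sum for `p - 2`

The library's weighted linear sieve (`Pool.Agent.Y882`) treats `n - p`; here the same for `p - 2`.
-/

set_option autoImplicit false

open Finset Filter Topology

namespace Pool.Agent.H32.TP

open Pool.Agent.Y882
open Pool.Agent.H410R2
open Pool.Agent.Helper112 Pool.Agent.Helper112.BLB
open Pool.Agent.H732R2.B2 (Sc)

/-- the sifted sum -/
noncomputable def T2 (x : ℝ) (w : ℕ → ℝ) : ℝ :=
  ∑ m ∈ Icc 1 ⌊x⌋₊, al x m * w (m - 2)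

open Classical in
/-- number of primes `p` in `(x / 2, x)` such that the weight is positive at `p - 2` -/
noncomputable def cnt2 (x : ℝ) (w : ℕ → ℝ) : ℕ :=
  ((Icc 1 ⌊x⌋₊).filter (fun p : ℕ => p.Prime ∧ x / 2 < p ∧ (p : ℝ) < x ∧ 0 < w (p - 2))).card

theorem T2_le (x : ℝ) (w : ℕ → ℝ) (hw : ∀ N, w N ≤ 1) (hx : 1 ≤ x) :
    T2 x w ≤ Real.log x * cnt2 x w + 2 * √x * Real.log x := by
  classical
  have h0 : 0 ≤ Real.log x := Real.log_nonneg hx
  have hx0 : 0 < x := by linarith
  have h1 : T2 x w ≤ ∑ m ∈ Icc 1 ⌊x⌋₊, ((if m.Prime ∧ x / 2 < m ∧ (m : ℝ) < x ∧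
      (0 < w (m - 2)) then Real.log x else 0) +
      (if ¬ m.Prime then al x m else 0)) := by
    unfold T2
    apply sum_le_sum
    intro m hm
    rw [mem_Icc] at hm
    have hm0 : (0 : ℝ) < m := by exact_mod_cast hm.1
    have hmx : (m : ℝ) ≤ x := (Nat.le_floor_iff hx0.le).1 hm.2
    have hal0 := al_nonneg x hx0 m hm.1
    obtain ⟨c1, c2, c3, c4, c5⟩ := tw_cases x hx0 m hm.1
    by_cases hr : 0 < w (m - 2)
    · have hw1 : al x m * w (m - 2) ≤ al x m := by
        calc al x m * w (m - 2) ≤ al x m * 1 := mul_le_mul_of_nonneg_left (hw _) hal0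
          _ = al x m := mul_one _
      refine hw1.trans ?_
      by_cases hp : m.Prime
      · rw [if_neg (not_not.2 hp), add_zero]
        by_cases h3 : x / 2 < m ∧ (m : ℝ) < x
        · rw [if_pos ⟨hp, h3.1, h3.2, hr⟩]
          exact (al_le x hx0 m hm.1).trans
            (ArithmeticFunction.vonMangoldt_le_log.trans (Real.log_le_log hm0 hmx))
        · have h4 : tw x m = 0 := by
            by_contra hne
            apply h3
            constructor
            · by_contra h5
              push Not at h5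
              exact hne (c3 h5)
            · by_contra h5
              push Not at h5
              exact hne (c4 h5)
          have h5 : al x m = 0 := by unfold al; rw [h4, mul_zero]
          rw [h5]
          split_ifs
          · exact h0
          · exact le_rfl
      · rw [if_pos hp]
        have : (0 : ℝ) ≤ (if m.Prime ∧ x / 2 < m ∧ (m : ℝ) < x ∧
          (0 < w (m - 2)) then Real.log x else 0) := by
          split_ifs
          · exact h0
          · exact le_rfl
        linarith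
    · refine le_trans (mul_nonpos_of_nonneg_of_nonpos hal0 (not_lt.1 hr)) ?_
      apply add_nonneg
      · split_ifs
        · exact h0
        · exact le_rfl
      · split_ifs
        · exact le_rfl
        · exact hal0
  refine h1.trans ?_
  rw [sum_add_distrib, ← sum_filter, ← sum_filter, sum_const, nsmul_eq_mul]
  have h2 := al_pp x hx
  unfold cnt2
  linarith

lemma al_small (x : ℝ) (hx : 16 ≤ x) (m : ℕ) (hm1 : 1 ≤ m) (hm : m ≤ 2) : al x m = 0 := by
  obtain ⟨c1, c2, c3, c4, c5⟩ := tw_cases x (by linarith) m hm1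
  have : tw x m = 0 := c3 (by
    have : (m : ℝ) ≤ 2 := by exact_mod_cast hm
    linarith)
  unfold al
  rw [this, mul_zero]

theorem lowT2 (x : ℝ) (w : ℕ → ℝ) (D : ℕ) (c : ℕ → ℝ) (K B R R' : ℝ) (hx16 : 16 ≤ x)
    (hK0 : 0 ≤ K) (hK : ∀ d, |c d| ≤ K) (hc : ∀ d, c d ≠ 0 → Squarefree d ∧ d ≤ D)
    (hN : ∀ N : ℕ, N ≠ 0 → ∑ d ∈ N.divisors, c d ≤ w N) (hB0 : 0 ≤ B)
    (hB : ∀ N : ℕ, 1 ≤ N → N ≤ ⌊x⌋₊ → (N.divisors.card : ℝ) ≤ B)
    (hR : ∀ g : ℕ, 1 ≤ g → g ≤ D →
      ∑ b ∈ (Icc 1 ⌊x⌋₊).filter (fun b => ¬ b.Coprime g), |al x b| ≤ R) (hR0 : 0 ≤ R)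
    (hR' : ∑ b ∈ (Icc 1 ⌊x⌋₊).filter (fun b => ¬ b.Coprime 2), |al x b| ≤ R') :
    ∑ d ∈ (Icc 1 D).filter (fun d => Nat.Coprime 2 d), c d * Ed ⌊x⌋₊ (al x) d 2 +
      (∑ m ∈ Icc 1 ⌊x⌋₊, al x m) * ∑ d ∈ (Icc 1 D).filter (fun d => Nat.Coprime 2 d),
        c d * (1 / (Nat.totient d : ℝ)) - K * (Sc 1 D * R + B * R') ≤ T2 x w := by
  classical
  set X := ⌊x⌋₊ with hX
  have hx0 : 0 < x := by linarith
  have hal0 : ∀ m ∈ Icc 1 X, 0 ≤ al x m := fun m hm => al_nonneg x hx0 m (mem_Icc.1 hm).1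
  have hsm : ∀ m ∈ Icc 1 X, m ≤ 2 → al x m = 0 := fun m hm hm2 =>
    al_small x hx16 m (mem_Icc.1 hm).1 hm2
  -- step 1: the sieve inequality
  have s1 : ∑ m ∈ Icc 1 X, al x m * ∑ d ∈ (m - 2).divisors, c d ≤ T2 x w := by
    unfold T2
    apply sum_le_sum
    intro m hm
    by_cases hm2 : m ≤ 2
    · rw [hsm m hm hm2, zero_mul, zero_mul]
    apply mul_le_mul_of_nonneg_left _ (hal0 m hm)
    exact hN (m - 2) (by omega)
  -- step 2: separate the moduli
  have s2 : ∀ m ∈ Icc 1 X, al x m * ∑ d ∈ (m - 2).divisors, c d ≥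
      al x m * ∑ d ∈ (m - 2).divisors.filter (fun d => Nat.Coprime 2 d), c d -
        (if ¬ m.Coprime 2 then |al x m| * (K * B) else 0) := by
    intro m hm
    have hm1 := hm
    rw [mem_Icc] at hm1
    by_cases hm2 : m ≤ 2
    · rw [hsm m hm hm2]
      simp
    have e1 : ∑ d ∈ (m - 2).divisors, c d =
        ∑ d ∈ (m - 2).divisors.filter (fun d => Nat.Coprime 2 d), c d +
        ∑ d ∈ (m - 2).divisors.filter (fun d => ¬ Nat.Coprime 2 d), c d := by
      rw [sum_filter_add_sum_filter_not]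
    rw [e1, mul_add]
    by_cases hcop : m.Coprime 2
    · have e2 : (m - 2).divisors.filter (fun d => ¬ Nat.Coprime 2 d) = ∅ := by
        rw [filter_eq_empty_iff]
        intro d hd hnd
        obtain ⟨p, hp, hpn, hpd⟩ := Nat.Prime.not_coprime_iff_dvd.1 hnd
        have h3 : p ∣ m - 2 := hpd.trans (Nat.dvd_of_mem_divisors hd)
        have h4 : p ∣ m := by
          have := Nat.dvd_add h3 hpn
          rwa [Nat.sub_add_cancel (by omega)] at this
        have h5 := Nat.dvd_gcd h4 hpn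
        rw [hcop] at h5
        have := hp.one_lt
        have := Nat.le_of_dvd one_pos h5
        omega
      rw [e2, sum_empty, mul_zero, if_neg (by simpa using hcop)]
      simp
    · rw [if_pos hcop]
      have h3 : |∑ d ∈ (m - 2).divisors.filter (fun d => ¬ Nat.Coprime 2 d), c d| ≤ K * B := by
        refine (abs_sum_le_sum_abs _ _).trans ?_
        calc ∑ d ∈ (m - 2).divisors.filter (fun d => ¬ Nat.Coprime 2 d), |c d| ≤
            ∑ d ∈ (m - 2).divisors, |c d| :=
              sum_le_sum_of_subset_of_nonneg (filter_subset _ _) fun _ _ _ => abs_nonneg _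
          _ ≤ ∑ d ∈ (m - 2).divisors, K := sum_le_sum fun d _ => hK d
          _ = ((m - 2).divisors.card : ℝ) * K := by rw [sum_const, nsmul_eq_mul]
          _ ≤ B * K := mul_le_mul_of_nonneg_right (hB (m - 2) (by omega) (by omega)) hK0
          _ = K * B := mul_comm _ _
      have h4 := (abs_le.1 h3).1
      have h5 := mul_le_mul_of_nonneg_left h4 (hal0 m hm)
      rw [abs_of_nonneg (hal0 m hm)]
      linarith
  have s3 : ∑ m ∈ Icc 1 X, al x m * ∑ d ∈ (m - 2).divisors.filter (fun d => Nat.Coprime 2 d), c d -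
      K * B * R' ≤ ∑ m ∈ Icc 1 X, al x m * ∑ d ∈ (m - 2).divisors, c d := by
    have h3 := sum_le_sum s2
    rw [sum_sub_distrib, ← sum_filter, ← sum_mul] at h3
    have h4 : (∑ m ∈ (Icc 1 X).filter (fun m => ¬ m.Coprime 2), |al x m|) * (K * B) ≤
        R' * (K * B) := mul_le_mul_of_nonneg_right hR' (mul_nonneg hK0 hB0)
    linarith
  -- step 3: exchange the sums
  have s4 : ∑ m ∈ Icc 1 X, al x m * ∑ d ∈ (m - 2).divisors.filter (fun d => Nat.Coprime 2 d), c d =
      ∑ d ∈ (Icc 1 D).filter (fun d => Nat.Coprime 2 d),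
        c d * ∑ m ∈ (Icc 1 X).filter (fun m => m ≡ 2 [MOD d]), al x m := by
    have h3 : ∀ m ∈ Icc 1 X, al x m *
        ∑ d ∈ (m - 2).divisors.filter (fun d => Nat.Coprime 2 d), c d =
        ∑ d ∈ (Icc 1 D).filter (fun d => Nat.Coprime 2 d),
          (if m ≡ 2 [MOD d] then c d * al x m else 0) := by
      intro m hm
      by_cases hm2 : m ≤ 2
      · rw [hsm m hm hm2]
        simp
      rw [mem_Icc] at hm
      rw [← sum_filter, mul_sum]
      have h4 : ∑ d ∈ (m - 2).divisors.filter (fun d => Nat.Coprime 2 d), al x m * c d =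
          ∑ d ∈ ((m - 2).divisors.filter (fun d => Nat.Coprime 2 d)).filter (fun d => c d ≠ 0),
            al x m * c d := by
        symm
        apply sum_filter_of_ne
        intro d _ h
        exact (mul_ne_zero_iff.1 h).2
      have h5 : ∑ d ∈ ((Icc 1 D).filter (fun d => Nat.Coprime 2 d)).filter
          (fun d => m ≡ 2 [MOD d]), c d * al x m =
          ∑ d ∈ (((Icc 1 D).filter (fun d => Nat.Coprime 2 d)).filter
          (fun d => m ≡ 2 [MOD d])).filter (fun d => c d ≠ 0), c d * al x m := by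
        symm
        apply sum_filter_of_ne
        intro d _ h
        exact (mul_ne_zero_iff.1 h).1
      rw [h4, h5]
      have h6 : ((m - 2).divisors.filter (fun d => Nat.Coprime 2 d)).filter (fun d => c d ≠ 0) =
          (((Icc 1 D).filter (fun d => Nat.Coprime 2 d)).filter
          (fun d => m ≡ 2 [MOD d])).filter (fun d => c d ≠ 0) := by
        ext d
        simp only [mem_filter, mem_Icc, Nat.mem_divisors]
        constructor
        · rintro ⟨⟨⟨h7, h8⟩, h9⟩, h10⟩
          refine ⟨⟨⟨⟨?_, (hc d h10).2⟩, h9⟩, ?_⟩, h10⟩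
          · exact Nat.pos_of_dvd_of_pos h7 (Nat.pos_of_ne_zero h8)
          · exact ((Nat.modEq_iff_dvd' (by omega)).2 h7).symm
        · rintro ⟨⟨⟨⟨h7, h8⟩, h9⟩, h10⟩, h11⟩
          exact ⟨⟨⟨(Nat.modEq_iff_dvd' (by omega)).1 h10.symm, by omega⟩, h9⟩, h11⟩
      rw [h6]
      exact sum_congr rfl fun d _ => mul_comm _ _
    rw [sum_congr rfl h3, sum_comm]
    apply sum_congr rfl
    intro d _
    rw [mul_sum, sum_filter]
  -- step 4: the main term
  have s5 : ∀ d ∈ (Icc 1 D).filter (fun d => Nat.Coprime 2 d),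
      c d * Ed X (al x) d 2 + (∑ m ∈ Icc 1 X, al x m) * (c d * (1 / (Nat.totient d : ℝ))) -
        (if Squarefree d then K * R * (1 ^ d.primeFactors.card / (Nat.totient d : ℝ)) else 0) ≤
      c d * ∑ m ∈ (Icc 1 X).filter (fun m => m ≡ 2 [MOD d]), al x m := by
    intro d hd
    rw [mem_filter, mem_Icc] at hd
    have hφ : (0 : ℝ) < Nat.totient d := by exact_mod_cast Nat.totient_pos.2 hd.1.1
    have e1 : ∑ m ∈ (Icc 1 X).filter (fun m => m ≡ 2 [MOD d]), al x m = Ed X (al x) d 2 +
        1 / (Nat.totient d : ℝ) * (∑ m ∈ Icc 1 X, al x m -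
          ∑ m ∈ (Icc 1 X).filter (fun m => ¬ m.Coprime d), al x m) := by
      have e2 : ∑ m ∈ Icc 1 X, al x m = ∑ m ∈ (Icc 1 X).filter (fun m => m.Coprime d), al x m +
          ∑ m ∈ (Icc 1 X).filter (fun m => ¬ m.Coprime d), al x m := by
        rw [sum_filter_add_sum_filter_not]
      rw [e2]
      unfold Ed
      ring
    have e3 : 0 ≤ ∑ m ∈ (Icc 1 X).filter (fun m => ¬ m.Coprime d), al x m :=
      sum_nonneg fun m hm => hal0 m (mem_filter.1 hm).1
    have e4 : ∑ m ∈ (Icc 1 X).filter (fun m => ¬ m.Coprime d), al x m ≤ R := by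
      refine le_trans (sum_le_sum fun m _ => le_abs_self _) (hR d hd.1.1 hd.1.2)
    rw [e1]
    set Q := ∑ m ∈ (Icc 1 X).filter (fun m => ¬ m.Coprime d), al x m with hQ
    have e5 : c d * (1 / (Nat.totient d : ℝ)) * Q ≤
        (if Squarefree d then K * R * (1 ^ d.primeFactors.card / (Nat.totient d : ℝ)) else 0) := by
      split_ifs with hs
      · have e6 : c d ≤ K := (le_abs_self _).trans (hK d)
        rw [one_pow]
        calc c d * (1 / (Nat.totient d : ℝ)) * Q ≤ K * (1 / (Nat.totient d : ℝ)) * Q := by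
              gcongr
          _ ≤ K * (1 / (Nat.totient d : ℝ)) * R := by gcongr
          _ = _ := by ring
      · have : c d = 0 := by
          by_contra hne
          exact hs (hc d hne).1
        rw [this]
        simp
    have e7 : c d * (Ed X (al x) d 2 + 1 / (Nat.totient d : ℝ) * (∑ m ∈ Icc 1 X, al x m - Q)) =
        c d * Ed X (al x) d 2 + (∑ m ∈ Icc 1 X, al x m) * (c d * (1 / (Nat.totient d : ℝ))) -
        c d * (1 / (Nat.totient d : ℝ)) * Q := by ring
    rw [e7]
    linarith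
  have s6 := sum_le_sum s5
  rw [sum_sub_distrib, sum_add_distrib, ← mul_sum] at s6
  have s7 : ∑ d ∈ (Icc 1 D).filter (fun d => Nat.Coprime 2 d),
      (if Squarefree d then K * R * (1 ^ d.primeFactors.card / (Nat.totient d : ℝ)) else 0) ≤
      K * R * Sc 1 D := by
    have h3 : ∀ d : ℕ, 0 ≤ (if Squarefree d then
        K * R * (1 ^ d.primeFactors.card / (Nat.totient d : ℝ)) else 0) := by
      intro d
      split_ifs
      · exact mul_nonneg (mul_nonneg hK0 hR0) (by positivity)
      · exact le_rfl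
    refine (sum_le_sum_of_subset_of_nonneg (filter_subset _ _) (fun d _ _ => h3 d)).trans ?_
    unfold Sc
    rw [← sum_filter, ← mul_sum]
  rw [s4] at s3
  linarith

end Pool.Agent.H32.TP
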