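import Pool.Agent.H32.TP.Dy

/-!
# Primes `p` such that `p - 2` has at most three prime factors, all of them larger than `p ^ (1 / 4 - ε)`
-/

set_option autoImplicit false

open Finset Filter Topology

namespace Pool.Agent.H32.TP

open Pool.Agent.W23.DC
open Pool.Agent.Y882
open Pool.Agent.Y882.KW
open Pool.Agent.Y882.GW
open Pool.Agent.Y882.GX

open Classical in
/-- the primes `p` in `(Y / 2, Y)` such that `p - 2` has at most `r` prime factors, all at least `z` -/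
noncomputable def g2 (r : ℕ) (z : ℝ) (Y : ℕ) : Finset ℕ :=
  (Icc 1 Y).filter (fun p : ℕ => p.Prime ∧ (Y : ℝ) / 2 < p ∧ (p : ℝ) < Y ∧
    (p - 2).primeFactorsList.length ≤ r ∧ ∀ q : ℕ, q.Prime → q ∣ (p - 2) → z ≤ q)

/-- the integral of the weights -/
lemma int_le (τ ζ υ lam : ℝ) (hζ : 0 < ζ) (hζυ : ζ < υ) (hυτ : υ < τ) (hlam : 0 < lam) :
    ∫ x in ζ..υ, (lam - lam / υ * x) / (τ - x) / x ≤
      lam * (υ - ζ) ^ 2 / (2 * υ * (τ - υ) * ζ) := by
  have hυ : 0 < υ := hζ.trans hζυ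
  have hd : 0 < τ - υ := by linarith
  have h1 : ∫ x in ζ..υ, (lam - lam / υ * x) / (τ - x) / x ≤
      ∫ x in ζ..υ, lam / (υ * (τ - υ) * ζ) * (υ - x) := by
    apply intervalIntegral.integral_mono_on hζυ.le
    · apply ContinuousOn.intervalIntegrable
      rw [Set.uIcc_of_le hζυ.le]
      apply ContinuousOn.div
      · apply ContinuousOn.div
        · fun_prop
        · fun_prop
        · intro x hx
          have := hx.2
          linarith
      · fun_prop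
      · intro x hx
        have := hx.1
        linarith
    · apply Continuous.intervalIntegrable
      fun_prop
    · intro x hx
      have hx0 : 0 < x := hζ.trans_le hx.1
      have hxυ : x ≤ υ := hx.2
      have e1 : lam - lam / υ * x = lam / υ * (υ - x) := by field_simp
      rw [e1, div_div]
      have e2 : lam / (υ * (τ - υ) * ζ) * (υ - x) = lam / υ * (υ - x) / ((τ - υ) * ζ) := by
        field_simp
      rw [e2]
      apply div_le_div_of_nonneg_left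
      · exact mul_nonneg (by positivity) (by linarith)
      · positivity
      · apply mul_le_mul (by linarith) hx.1 hζ.le (by linarith)
  refine h1.trans (le_of_eq ?_)
  rw [intervalIntegral.integral_const_mul]
  have h2 : ∫ x in ζ..υ, (υ - x) = (υ - ζ) ^ 2 / 2 := by
    rw [intervalIntegral.integral_sub (by simp) (by simp)]
    simp
    ring
  rw [h2]
  field_simp

/-- the numerical condition -/
lemma num (ε : ℝ) (hε : 0 < ε) (hε1 : ε ≤ 1 / 100) :
    ∫ x in (1 / 4 - ε)..(1 / 4 + ε), ((1 / 4 + ε) / (4 * ε) -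
      (1 / 4 + ε) / (4 * ε) / (1 / 4 + ε) * x) / ((1 / 2 - ε / 10) - x) / x <
      Real.log ((1 / 2 - ε / 10) / (1 / 4 - ε) - 1) / (1 / 2 - ε / 10) := by
  have hζ : 0 < 1 / 4 - ε := by linarith
  have h1 := int_le (1 / 2 - ε / 10) (1 / 4 - ε) (1 / 4 + ε) ((1 / 4 + ε) / (4 * ε)) hζ
    (by linarith) (by linarith) (by positivity)
  refine lt_of_le_of_lt h1 ?_
  have e1 : (1 / 4 + ε) / (4 * ε) * ((1 / 4 + ε) - (1 / 4 - ε)) ^ 2 /
      (2 * (1 / 4 + ε) * ((1 / 2 - ε / 10) - (1 / 4 + ε)) * (1 / 4 - ε)) =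
      ε / (2 * (1 / 4 - 11 / 10 * ε) * (1 / 4 - ε)) := by
    have h3 : (1 / 4 + ε) ≠ 0 := by positivity
    have h4 : (1 / 4 - 11 / 10 * ε) ≠ 0 := by
      have : 0 < 1 / 4 - 11 / 10 * ε := by linarith
      exact this.ne'
    have h5 : (1 / 2 - ε / 10) - (1 / 4 + ε) = 1 / 4 - 11 / 10 * ε := by ring
    have h6 : (1 / 4 + ε) - (1 / 4 - ε) = 2 * ε := by ring
    rw [h5, h6]
    have h7 := hζ.ne'
    rw [div_mul_eq_mul_div, div_div, div_eq_div_iff (by positivity) (by positivity)]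
    ring
  rw [e1]
  have h2 : ε / (2 * (1 / 4 - 11 / 10 * ε) * (1 / 4 - ε)) ≤ 10 * ε := by
    rw [div_le_iff₀ (by
      have : 0 < 1 / 4 - 11 / 10 * ε := by linarith
      positivity)]
    have h3 : (1 : ℝ) ≤ 10 * (2 * (1 / 4 - 11 / 10 * ε) * (1 / 4 - ε)) := by
      have a1 : (239 / 1000 : ℝ) ≤ 1 / 4 - 11 / 10 * ε := by linarith
      have a2 : (24 / 100 : ℝ) ≤ 1 / 4 - ε := by linarith
      have a3 : (239 / 1000 : ℝ) * (24 / 100) ≤ (1 / 4 - 11 / 10 * ε) * (1 / 4 - ε) :=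
        mul_le_mul a1 a2 (by norm_num) (by linarith)
      nlinarith
    nlinarith
  refine lt_of_le_of_lt h2 ?_
  have h3 : (1 / 2 - ε / 10) / (1 / 4 - ε) - 1 = (1 / 4 + 9 / 10 * ε) / (1 / 4 - ε) := by
    rw [div_sub_one hζ.ne']
    congr 1
    ring
  rw [h3]
  have h4 : 0 < (1 / 4 + 9 / 10 * ε) / (1 / 4 - ε) := by positivity
  have h5 := Real.one_sub_inv_le_log_of_pos h4
  have h6 : 1 - ((1 / 4 + 9 / 10 * ε) / (1 / 4 - ε))⁻¹ = (19 / 10 * ε) / (1 / 4 + 9 / 10 * ε) := by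
    rw [inv_div]
    field_simp
    ring
  rw [h6] at h5
  rw [lt_div_iff₀ (by linarith)]
  refine lt_of_lt_of_le ?_ h5
  rw [lt_div_iff₀ (by positivity)]
  have h7 : (1 / 2 - ε / 10) * (1 / 4 + 9 / 10 * ε) ≤ 1 / 2 * (26 / 100) :=
    mul_le_mul (by linarith) (by linarith) (by positivity) (by norm_num)
  have h8 : 10 * ε * (1 / 2 - ε / 10) * (1 / 4 + 9 / 10 * ε) =
      10 * ε * ((1 / 2 - ε / 10) * (1 / 4 + 9 / 10 * ε)) := by ring
  rw [h8]
  nlinarith

/-- from positive weights to almost primes -/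
theorem pass2 (r : ℕ) (ζ υ lam δ : ℝ) (hζ0 : 0 < ζ)
    (hζυ : ζ ≤ υ) (hυ1 : υ < 1) (hlam : 0 < lam) (hδ : 0 < δ)
    (hr : 1 / lam + 1 / υ ≤ r + 1) :
    ∃ Y0 : ℕ, ∀ Y : ℕ, Y0 ≤ Y →
      δ * Y / Real.log Y ^ 2 ≤ (cnt2 (Y : ℝ) (WW Y ζ υ lam (lam / υ)) : ℝ) →
      δ / 2 * Y / Real.log Y ^ 2 ≤ ((g2 r ((Y : ℝ) ^ ζ) Y).card : ℝ) := by
  classical
  have hυ0 : 0 < υ := by linarith
  obtain ⟨Y3, HM⟩ := med2 ζ υ hζ0 hυ1.le
  have ev1 := polylog (8 / δ) 2 ζ hζ0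
  have ev2 := polylog (4 / δ) 2 (1 - υ) (by linarith)
  obtain ⟨Y4, hY4⟩ := eventually_atTop.1 (ev1.and (ev2.and (eventually_ge_atTop 16)))
  refine ⟨max Y3 Y4, ?_⟩
  intro Y hY g1
  obtain ⟨e1, e2, e6⟩ := hY4 Y ((le_max_right _ _).trans hY)
  have hY3 : Y3 ≤ Y := (le_max_left _ _).trans hY
  have hYr : (16 : ℝ) ≤ Y := by exact_mod_cast e6
  have hY0 : (0 : ℝ) < Y := by linarith
  have hlY : 0 < Real.log Y := Real.log_pos (by linarith)
  have g3 := HM Y hY3 Y 2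
  have hkey : cnt2 (Y : ℝ) (WW Y ζ υ lam (lam / υ)) ≤ (g2 r ((Y : ℝ) ^ ζ) Y).card +
      ((Icc 1 Y).filter (fun m => SBad Y ζ υ 2 m)).card := by
    unfold cnt2
    rw [Nat.floor_natCast]
    refine (card_le_card ?_).trans (card_union_le _ _)
    intro p hp
    rw [mem_filter] at hp
    obtain ⟨hp1, hp2, hp3, hp4, hp5⟩ := hp
    rw [mem_union]
    by_cases hb : SBad Y ζ υ 2 p
    · right
      rw [mem_filter]
      exact ⟨hp1, hb⟩
    · left
      have hp2' : 2 < p := by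
        have : (2 : ℝ) < p := by linarith
        exact_mod_cast this
      have hres := almost Y (by omega) ζ υ lam 1 r hζυ hυ0 hυ1.le hlam hr (p - 2)
        (by omega) (by
          rw [Real.rpow_one]
          have h8 : p - 2 ≤ Y := by
            have := (mem_Icc.1 hp1).2
            omega
          exact_mod_cast h8) hp5 (by
          intro q hq hqd
          apply hb
          refine ⟨q, hq, ?_⟩
          have h9 : ((p - 2 : ℕ) : ℤ) = (p : ℤ) - 2 := by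
            rw [Nat.cast_sub (by omega)]
            norm_num
          have h10 : ((q ^ 2 : ℕ) : ℤ) ∣ ((p - 2 : ℕ) : ℤ) := by exact_mod_cast hqd
          rw [h9] at h10
          have h11 : (((2 : ℕ) : ℤ) - p) = -((p : ℤ) - 2) := by push_cast; ring
          rw [h11]
          exact (dvd_neg).2 h10)
      unfold g2
      rw [mem_filter]
      exact ⟨hp1, hp2, hp3, hp4, hres.1, hres.2⟩
  have hkr : (cnt2 (Y : ℝ) (WW Y ζ υ lam (lam / υ)) : ℝ) ≤ ((g2 r ((Y : ℝ) ^ ζ) Y).card : ℝ) +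
      (((Icc 1 Y).filter (fun m => SBad Y ζ υ 2 m)).card : ℝ) := by exact_mod_cast hkey
  have hYζ : 0 < (Y : ℝ) ^ ζ := by positivity
  have k1 : (Y : ℝ) * (2 / (Y : ℝ) ^ ζ) ≤ δ / 4 * Y / Real.log Y ^ 2 := by
    rw [mul_div_assoc', div_le_div_iff₀ hYζ (by positivity)]
    have h9 := mul_le_mul_of_nonneg_left e1 (show 0 ≤ δ / 4 * Y by positivity)
    have h10 : δ / 4 * Y * (8 / δ * Real.log Y ^ 2) = Y * 2 * Real.log Y ^ 2 := by
      field_simp
      ring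
    rw [h10] at h9
    exact h9
  have k2 : (Y : ℝ) ^ υ ≤ δ / 4 * Y / Real.log Y ^ 2 := by
    rw [le_div_iff₀ (by positivity)]
    have h9 := mul_le_mul_of_nonneg_left e2 (show 0 ≤ δ / 4 * (Y : ℝ) ^ υ by positivity)
    have h10 : δ / 4 * (Y : ℝ) ^ υ * (4 / δ * Real.log Y ^ 2) = (Y : ℝ) ^ υ * Real.log Y ^ 2 := by
      field_simp
    have h11 : δ / 4 * (Y : ℝ) ^ υ * (Y : ℝ) ^ (1 - υ) = δ / 4 * Y := by
      rw [mul_assoc, ← Real.rpow_add hY0]
      norm_num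
    rw [h10, h11] at h9
    exact h9
  have h12 : δ / 2 * Y / Real.log Y ^ 2 = δ * Y / Real.log Y ^ 2 - δ / 4 * Y / Real.log Y ^ 2 -
      δ / 4 * Y / Real.log Y ^ 2 := by ring
  rw [h12]
  linarith

/-- **Primes `p` such that `p - 2` has at most three prime factors, all at least `Y ^ (1 / 4 - ε)`.** -/
theorem p3 (ε : ℝ) (hε : 0 < ε) (hε1 : ε ≤ 1 / 100) : ∃ δ : ℝ, 0 < δ ∧ ∃ Y0 : ℕ, ∀ Y : ℕ, Y0 ≤ Y →
    δ * Y / Real.log Y ^ 2 ≤ ((g2 3 ((Y : ℝ) ^ (1 / 4 - ε)) Y).card : ℝ) := by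
  have hJ := num ε hε hε1
  have hlam : 0 < (1 / 4 + ε) / (4 * ε) := by positivity
  obtain ⟨δ, hδ, Y1, H⟩ := dyadic2 1 (1 / 2 - ε / 10) (1 / 4 - ε) (1 / 4 + ε) ((1 / 4 + ε) / (4 * ε))
    ((1 / 4 + ε) / (4 * ε) / (1 / 4 + ε)) one_pos le_rfl (by linarith) (by linarith) (by linarith)
    (by linarith) (by linarith) (by linarith) hlam.le (by positivity)
    (by rw [div_mul_cancel₀ _ (by positivity)]) hJ
  obtain ⟨Y2, HP⟩ := pass2 3 (1 / 4 - ε) (1 / 4 + ε) ((1 / 4 + ε) / (4 * ε)) δ (by linarith)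
    (by linarith) (by linarith) hlam hδ (by
      have : 1 / ((1 / 4 + ε) / (4 * ε)) + 1 / (1 / 4 + ε) = 4 := by
        field_simp
        ring
      rw [this]
      norm_num)
  refine ⟨δ / 2, by positivity, max Y1 Y2, fun Y hY => ?_⟩
  have h1 : Y1 ≤ Y := (le_max_left _ _).trans hY
  have h2 : Y2 ≤ Y := (le_max_right _ _).trans hY
  exact HP Y h2 (H Y h1 (Y : ℝ) (by rw [Real.rpow_one]) le_rfl)

end Pool.Agent.H32.TP
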